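import Pool.Agent.Lib_helper35.DC.Defs

/-! MP_81bc02_gt, block CM: counting with a continuous correction of the length. -/

set_option autoImplicit false

open MeasureTheory Filter Topology

namespace Pool.Agent.DC

/-- hat functions -/
noncomputable def CM_hat (δ : ℝ) (j : ℤ) (t : ℝ) : ℝ := max 0 (1 - |t / δ - j|)

theorem CM_hat_nonneg (δ : ℝ) (j : ℤ) (t : ℝ) : 0 ≤ CM_hat δ j t := le_max_left _ _

theorem CM_hat_cont (δ : ℝ) (j : ℤ) : Continuous (CM_hat δ j) :=
  continuous_const.max (continuous_const.sub (((continuous_id.div_const δ).sub continuous_const).abs))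

theorem CM_hat_supp {δ : ℝ} (hδ : 0 < δ) {j : ℤ} {t : ℝ} (h : CM_hat δ j t ≠ 0) :
    (j - 1) * δ ≤ t ∧ t ≤ (j + 1) * δ := by
  have h1 : |t / δ - j| < 1 := by
    by_contra hcon
    exact h (max_eq_left (by linarith [not_lt.1 hcon]))
  rw [abs_lt] at h1
  constructor
  · have h2 : (j - 1 : ℝ) ≤ t / δ := by linarith [h1.1]
    rwa [le_div_iff₀ hδ] at h2
  · have h2 : t / δ ≤ (j + 1 : ℝ) := by linarith [h1.2]
    rwa [div_le_iff₀ hδ] at h2

theorem CM_hat_sum {δ : ℝ} (J : ℤ) {t : ℝ} (h1 : -J ≤ t / δ) (h2 : t / δ < J) :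
    ∑ j ∈ Finset.Icc (-J) J, CM_hat δ j t = 1 := by
  obtain ⟨x, hx⟩ : ∃ x, x = t / δ := ⟨_, rfl⟩
  rw [← hx] at h1 h2
  have hk0 : (⌊x⌋ : ℝ) ≤ x := Int.floor_le x
  have hk1 : x < ⌊x⌋ + 1 := Int.lt_floor_add_one x
  have ha : -J ≤ ⌊x⌋ := Int.le_floor.2 (by push_cast; exact h1)
  have hb : ⌊x⌋ < J := Int.floor_lt.2 h2
  have hne : ⌊x⌋ ≠ ⌊x⌋ + 1 := by omega
  have hsub : ({⌊x⌋, ⌊x⌋ + 1} : Finset ℤ) ⊆ Finset.Icc (-J) J := by
    intro j hj
    rw [Finset.mem_insert, Finset.mem_singleton] at hj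
    rw [Finset.mem_Icc]
    rcases hj with rfl | rfl <;> omega
  rw [← Finset.sum_subset hsub, Finset.sum_pair hne]
  · have e1 : CM_hat δ ⌊x⌋ t = 1 - (x - ⌊x⌋) := by
      unfold CM_hat
      rw [← hx, abs_of_nonneg (by linarith), max_eq_right (by linarith)]
    have e2 : CM_hat δ (⌊x⌋ + 1) t = x - ⌊x⌋ := by
      unfold CM_hat
      push_cast
      rw [← hx, abs_of_nonpos (by linarith), max_eq_right (by linarith)]
      ring
    rw [e1, e2]
    ring
  · intro j _ hj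
    rw [Finset.mem_insert, Finset.mem_singleton, not_or] at hj
    unfold CM_hat
    refine max_eq_left ?_
    rw [← hx]
    rcases lt_or_gt_of_ne hj.1 with h | h
    · have : (j : ℝ) + 1 ≤ ⌊x⌋ := by exact_mod_cast h
      have := le_abs_self (x - j)
      linarith
    · have h' : ⌊x⌋ + 2 ≤ j := by omega
      have : (⌊x⌋ : ℝ) + 2 ≤ j := by exact_mod_cast h'
      have := neg_le_abs (x - j)
      linarith

section

variable {G P : Type} [Group G] [MetricSpace P] [MeasurableSpace P] [BorelSpace P] [CompactSpace P]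

/-- the shifted sums -/
theorem CM_lim (D : Cnt G P) (m : P × P → ℝ) (hm : Continuous m) (δ : ℝ) (J : ℤ) (s : ℤ) :
    Tendsto (fun r => Real.exp (-(D.h * r)) * ∑ j ∈ Finset.Icc (-J) J,
      ∑ g ∈ (D.fin (r - (j + s) * δ)).toFinset, CM_hat δ j (m (D.pi g, D.pi g⁻¹))) atTop
      (𝓝 (D.C * ∑ j ∈ Finset.Icc (-J) J, Real.exp (-(D.h * ((j + s) * δ))) *
        ∫ z, CM_hat δ j (m z) ∂(D.nu.prod D.nu))) := by
  simp only [Finset.mul_sum]
  refine tendsto_finsetSum _ fun j _ => ?_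
  have h1 := D.equi (fun z => CM_hat δ j (m z)) ((CM_hat_cont δ j).comp hm)
  have h2 : Tendsto (fun r : ℝ => r - (j + s) * δ) atTop atTop :=
    tendsto_atTop_add_const_right _ _ tendsto_id
  have h3 := (h1.comp h2).const_mul (Real.exp (-(D.h * ((j + s) * δ))))
  have e : ∀ r : ℝ, Real.exp (-(D.h * ((j + s) * δ))) * (Real.exp (-(D.h * (r - (j + s) * δ))) *
      ∑ g ∈ (D.fin (r - (j + s) * δ)).toFinset, CM_hat δ j (m (D.pi g, D.pi g⁻¹))) =
      Real.exp (-(D.h * r)) * ∑ g ∈ (D.fin (r - (j + s) * δ)).toFinset,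
        CM_hat δ j (m (D.pi g, D.pi g⁻¹)) := by
    intro r
    rw [← mul_assoc, ← Real.exp_add]
    congr 2
    ring
  have h4 : (fun r => Real.exp (-(D.h * r)) * ∑ g ∈ (D.fin (r - (j + s) * δ)).toFinset,
      CM_hat δ j (m (D.pi g, D.pi g⁻¹))) = fun r => Real.exp (-(D.h * ((j + s) * δ))) *
      (Real.exp (-(D.h * (r - (j + s) * δ))) *
      ∑ g ∈ (D.fin (r - (j + s) * δ)).toFinset, CM_hat δ j (m (D.pi g, D.pi g⁻¹))) :=
    funext fun r => (e r).symm
  have h5 : (fun r => ∑ i ∈ (D.fin (r - (j + s) * δ)).toFinset,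
      Real.exp (-(D.h * r)) * CM_hat δ j (m (D.pi i, D.pi i⁻¹))) = fun r => Real.exp (-(D.h * r)) *
      ∑ g ∈ (D.fin (r - (j + s) * δ)).toFinset, CM_hat δ j (m (D.pi g, D.pi g⁻¹)) :=
    funext fun r => (Finset.mul_sum _ _ _).symm
  rw [h5, h4]
  have e2 : D.C * (Real.exp (-(D.h * ((j + s) * δ))) * ∫ z, CM_hat δ j (m z) ∂(D.nu.prod D.nu)) =
      Real.exp (-(D.h * ((j + s) * δ))) * (D.C * ∫ z, CM_hat δ j (m z) ∂(D.nu.prod D.nu)) := by
    ring
  rw [e2]
  exact h3

/-- BLOCK CM. Counting with a continuous correction of the length. -/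
theorem CM_main (D : Cnt G P) (m : P × P → ℝ) (hm : Continuous m) :
    Tendsto (fun r => Real.exp (-(D.h * r)) *
      (Set.ncard {g : G | D.len g + m (D.pi g, D.pi g⁻¹) ≤ r} : ℝ)) atTop
      (𝓝 (D.C * ∫ z, Real.exp (-(D.h * m z)) ∂(D.nu.prod D.nu))) := by
  classical
  have := D.prob
  have hC := D.Cpos
  have hh := D.hpos
  set μ : Measure (P × P) := D.nu.prod D.nu with hμ
  obtain ⟨B, hB⟩ : ∃ B : ℝ, ∀ z, |m z| ≤ B := by
    obtain ⟨B, hB⟩ := (isCompact_univ (X := P × P)).exists_bound_of_continuousOn hm.continuousOn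
    exact ⟨B, fun z => hB z (Set.mem_univ z)⟩
  have hexpc : Continuous fun z => Real.exp (-(D.h * m z)) :=
    Real.continuous_exp.comp (continuous_const.mul hm).neg
  have hint : ∀ f : P × P → ℝ, Continuous f → Integrable f μ := fun f hf =>
    (BoundedContinuousFunction.mkOfCompact ⟨f, hf⟩).integrable μ
  obtain ⟨I, hI⟩ : ∃ I, I = D.C * ∫ z, Real.exp (-(D.h * m z)) ∂μ := ⟨_, rfl⟩
  have hI0 : 0 ≤ I := by
    rw [hI]
    exact mul_nonneg hC.le (integral_nonneg fun z => (Real.exp_pos _).le)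
  rw [← hI]
  have hfin : ∀ r, {g : G | D.len g + m (D.pi g, D.pi g⁻¹) ≤ r}.Finite := fun r =>
    (D.fin (r + B)).subset fun g hg => by
      have h1 := neg_le_of_abs_le (hB (D.pi g, D.pi g⁻¹))
      have h2 : D.len g + m (D.pi g, D.pi g⁻¹) ≤ r := hg
      show D.len g ≤ r + B
      linarith
  -- the bounds for a fixed mesh
  have key : ∀ δ : ℝ, 0 < δ → ∃ (lo up : ℝ → ℝ) (a b : ℝ), Tendsto lo atTop (𝓝 a) ∧
      Tendsto up atTop (𝓝 b) ∧ (∀ r, lo r ≤ Real.exp (-(D.h * r)) *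
      (Set.ncard {g : G | D.len g + m (D.pi g, D.pi g⁻¹) ≤ r} : ℝ)) ∧
      (∀ r, Real.exp (-(D.h * r)) *
      (Set.ncard {g : G | D.len g + m (D.pi g, D.pi g⁻¹) ≤ r} : ℝ) ≤ up r) ∧
      Real.exp (-(2 * D.h * δ)) * I ≤ a ∧ b ≤ Real.exp (2 * D.h * δ) * I := by
    intro δ hδ
    obtain ⟨J, hJ⟩ : ∃ J : ℤ, B / δ < J := exists_int_gt (B / δ)
    have hsum : ∀ z, ∑ j ∈ Finset.Icc (-J) J, CM_hat δ j (m z) = 1 := fun z => by
      have h1 := abs_le.1 (hB z)
      have h2 : m z / δ ≤ B / δ := div_le_div_of_nonneg_right h1.2 hδ.le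
      have h3 : -(B / δ) ≤ m z / δ := by
        rw [← neg_div]
        exact div_le_div_of_nonneg_right h1.1 hδ.le
      exact CM_hat_sum J (by linarith) (by linarith)
    have hintsum : ∀ (w : ℤ → ℝ), ∑ j ∈ Finset.Icc (-J) J, w j * ∫ z, CM_hat δ j (m z) ∂μ =
        ∫ z, ∑ j ∈ Finset.Icc (-J) J, w j * CM_hat δ j (m z) ∂μ := fun w => by
      have hi : ∀ j ∈ Finset.Icc (-J) J, Integrable (fun z => w j * CM_hat δ j (m z)) μ :=
        fun j _ => (hint (fun z => CM_hat δ j (m z)) ((CM_hat_cont δ j).comp hm)).const_mul (w j)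
      rw [integral_finsetSum _ hi]
      exact Finset.sum_congr rfl fun j _ => (integral_const_mul _ _).symm
    have hwc : ∀ (w : ℤ → ℝ), Continuous fun z => ∑ j ∈ Finset.Icc (-J) J, w j * CM_hat δ j (m z) :=
      fun w => continuous_finsetSum _ fun j _ => continuous_const.mul ((CM_hat_cont δ j).comp hm)
    -- the count as a sum of hats
    have hcount : ∀ r, (Set.ncard {g : G | D.len g + m (D.pi g, D.pi g⁻¹) ≤ r} : ℝ) =
        ∑ j ∈ Finset.Icc (-J) J, ∑ g ∈ (hfin r).toFinset, CM_hat δ j (m (D.pi g, D.pi g⁻¹)) := by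
      intro r
      rw [Finset.sum_comm, Finset.sum_congr rfl fun g _ => hsum (D.pi g, D.pi g⁻¹),
        Finset.sum_const, nsmul_eq_mul, mul_one, Set.ncard_eq_toFinset_card _ (hfin r)]
    refine ⟨_, _, _, _, CM_lim D m hm δ J 1, CM_lim D m hm δ J (-1), fun r => ?_, fun r => ?_, ?_, ?_⟩
    · refine mul_le_mul_of_nonneg_left ?_ (Real.exp_pos _).le
      rw [hcount]
      refine Finset.sum_le_sum fun j _ => ?_
      have h1 : ∑ g ∈ (D.fin (r - (j + (1 : ℤ)) * δ)).toFinset, CM_hat δ j (m (D.pi g, D.pi g⁻¹)) =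
          ∑ g ∈ (D.fin (r - (j + (1 : ℤ)) * δ)).toFinset.filter
            (fun g => CM_hat δ j (m (D.pi g, D.pi g⁻¹)) ≠ 0), CM_hat δ j (m (D.pi g, D.pi g⁻¹)) :=
        (Finset.sum_filter_ne_zero _).symm
      rw [h1]
      refine Finset.sum_le_sum_of_subset_of_nonneg (fun g hg => ?_) fun g _ _ => CM_hat_nonneg _ _ _
      rw [Finset.mem_filter, Set.Finite.mem_toFinset] at hg
      rw [Set.Finite.mem_toFinset]
      have h2 := (CM_hat_supp hδ hg.2).2
      have h3 : D.len g ≤ r - (j + (1 : ℤ)) * δ := hg.1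
      push_cast at h3
      show D.len g + m (D.pi g, D.pi g⁻¹) ≤ r
      linarith
    · refine mul_le_mul_of_nonneg_left ?_ (Real.exp_pos _).le
      rw [hcount]
      refine Finset.sum_le_sum fun j _ => ?_
      have h1 : ∑ g ∈ (hfin r).toFinset, CM_hat δ j (m (D.pi g, D.pi g⁻¹)) =
          ∑ g ∈ (hfin r).toFinset.filter
            (fun g => CM_hat δ j (m (D.pi g, D.pi g⁻¹)) ≠ 0), CM_hat δ j (m (D.pi g, D.pi g⁻¹)) :=
        (Finset.sum_filter_ne_zero _).symm
      rw [h1]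
      refine Finset.sum_le_sum_of_subset_of_nonneg (fun g hg => ?_) fun g _ _ => CM_hat_nonneg _ _ _
      rw [Finset.mem_filter, Set.Finite.mem_toFinset] at hg
      rw [Set.Finite.mem_toFinset]
      have h2 := (CM_hat_supp hδ hg.2).1
      have h3 : D.len g + m (D.pi g, D.pi g⁻¹) ≤ r := hg.1
      show D.len g ≤ r - (j + ((-1 : ℤ) : ℝ)) * δ
      push_cast
      linarith
    · have e1 : Real.exp (-(2 * D.h * δ)) * I =
          D.C * ∫ z, Real.exp (-(2 * D.h * δ)) * Real.exp (-(D.h * m z)) ∂μ := by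
        rw [hI, integral_const_mul]
        ring
      rw [e1, hintsum]
      refine mul_le_mul_of_nonneg_left (integral_mono ((hint _ hexpc).const_mul _)
        (hint _ (hwc _)) fun z => ?_) hC.le
      show Real.exp (-(2 * D.h * δ)) * Real.exp (-(D.h * m z)) ≤ _
      rw [← Real.exp_add, ← mul_one (Real.exp _), ← hsum z, Finset.mul_sum]
      refine Finset.sum_le_sum fun j _ => ?_
      by_cases hj : CM_hat δ j (m z) = 0
      · rw [hj, mul_zero, mul_zero]
      · refine mul_le_mul_of_nonneg_right (Real.exp_le_exp.2 ?_) (CM_hat_nonneg _ _ _)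
        have h2 := (CM_hat_supp hδ hj).1
        push_cast
        nlinarith
    · have e1 : Real.exp (2 * D.h * δ) * I =
          D.C * ∫ z, Real.exp (2 * D.h * δ) * Real.exp (-(D.h * m z)) ∂μ := by
        rw [hI, integral_const_mul]
        ring
      rw [e1, hintsum]
      refine mul_le_mul_of_nonneg_left (integral_mono (hint _ (hwc _)) ((hint _ hexpc).const_mul _)
          fun z => ?_) hC.le
      show _ ≤ Real.exp (2 * D.h * δ) * Real.exp (-(D.h * m z))
      rw [← Real.exp_add, ← mul_one (Real.exp (_ + _)), ← hsum z, Finset.mul_sum]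
      refine Finset.sum_le_sum fun j _ => ?_
      by_cases hj : CM_hat δ j (m z) = 0
      · rw [hj, mul_zero, mul_zero]
      · refine mul_le_mul_of_nonneg_right (Real.exp_le_exp.2 ?_) (CM_hat_nonneg _ _ _)
        have h2 := (CM_hat_supp hδ hj).2
        push_cast
        nlinarith
  -- the limit
  have hcont : Tendsto (fun δ : ℝ => Real.exp (2 * D.h * δ) * I) (𝓝[>] 0) (𝓝 I) := by
    have h1 : Continuous fun δ : ℝ => Real.exp (2 * D.h * δ) * I := by fun_prop
    have h2 := h1.tendsto 0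
    rw [mul_zero, Real.exp_zero, one_mul] at h2
    exact h2.mono_left nhdsWithin_le_nhds
  have hcont' : Tendsto (fun δ : ℝ => Real.exp (-(2 * D.h * δ)) * I) (𝓝[>] 0) (𝓝 I) := by
    have h1 : Continuous fun δ : ℝ => Real.exp (-(2 * D.h * δ)) * I := by fun_prop
    have h2 := h1.tendsto 0
    rw [mul_zero, neg_zero, Real.exp_zero, one_mul] at h2
    exact h2.mono_left nhdsWithin_le_nhds
  rw [tendsto_order]
  constructor
  · intro x hx
    obtain ⟨δ, hδ1, hδ⟩ := ((hcont'.eventually_const_lt hx).and self_mem_nhdsWithin).exists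
    obtain ⟨lo, up, a, b, hlo, hup, h1, h2, h3, h4⟩ := key δ hδ
    filter_upwards [hlo.eventually_const_lt (lt_of_lt_of_le hδ1 h3)] with r hr
    exact lt_of_lt_of_le hr (h1 r)
  · intro x hx
    obtain ⟨δ, hδ1, hδ⟩ := ((hcont.eventually_lt_const hx).and self_mem_nhdsWithin).exists
    obtain ⟨lo, up, a, b, hlo, hup, h1, h2, h3, h4⟩ := key δ hδ
    filter_upwards [hup.eventually_lt_const (lt_of_le_of_lt h4 hδ1)] with r hr
    exact lt_of_le_of_lt (h2 r) hr

end

end Pool.Agent.DC
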